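import Mathlib

/-!
# 2-sunflowerable structures are sunflowerable
-/

namespace Pool.Agent.Results.MP_615e1a_lc.TwoSunflowerable

open FirstOrder FirstOrder.Language

universe u v w

/-- A set of finite sets is a sunflower if there is a set `r` with `p ∩ q = r` for all distinct
members `p`, `q`. -/
def IsSunflower {A : Type u} (S : Set (Finset A)) : Prop :=
  ∃ r : Set A, ∀ p ∈ S, ∀ q ∈ S, p ≠ q → (p : Set A) ∩ (q : Set A) = r

/-- `M` is `n`-sunflowerable: every structure isomorphic to `M` whose underlying set `Y` consists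
of `n`-element sets has a substructure isomorphic to itself whose underlying set is a
sunflower. -/
def NSunflowerable (L : FirstOrder.Language.{v, w}) (M : Type u) [L.Structure M] (n : ℕ) : Prop :=
  ∀ (A : Type u) (Y : Set (Finset A)) (_ : ∀ s ∈ Y, s.card = n) (_ : L.Structure Y),
    Nonempty (Y ≃[L] M) →
      ∃ Z : L.Substructure Y, Nonempty (Z ≃[L] Y) ∧
        IsSunflower ((fun y : Y => (y : Finset A)) '' (Z : Set Y))

/-- `M` is sunflowerable if it is `n`-sunflowerable for every `n`. -/
def Sunflowerable (L : FirstOrder.Language.{v, w}) (M : Type u) [L.Structure M] : Prop :=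
  ∀ n, NSunflowerable L M n

section

variable {L : FirstOrder.Language.{v, w}} {M : Type u} [L.Structure M]

/-- The functional form of `n`-sunflowerability. -/
theorem functional {n : ℕ} (h : NSunflowerable L M n) {A : Type u} (F : M → Finset A)
    (hF : Function.Injective F) (hn : ∀ x, (F x).card = n) :
    ∃ (g : M ↪[L] M) (r : Set A), ∀ x y, x ≠ y → (F (g x) : Set A) ∩ (F (g y) : Set A) = r := by
  classical
  let e0 : M ≃ Set.range F := Equiv.ofInjective F hF
  let S : L.Structure (Set.range F) := e0.inducedStructure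
  let e : M ≃[L] Set.range F := e0.inducedStructureEquiv
  obtain ⟨Z, ⟨φ⟩, r, hr⟩ := h A (Set.range F) (by rintro _ ⟨x, rfl⟩; exact hn x) S ⟨e.symm⟩
  let g : M ↪[L] M :=
    e.symm.toEmbedding.comp (Z.subtype.comp (φ.symm.toEmbedding.comp e.toEmbedding))
  have hg : ∀ x, F (g x) = ((φ.symm (e x) : Set.range F) : Finset A) := by
    intro x
    have h1 : e (g x) = (φ.symm (e x) : Set.range F) := by
      simp [g]
    rw [← h1]
    rfl
  refine ⟨g, r, fun x y hxy => ?_⟩
  apply hr
  · rw [hg]
    exact ⟨_, (φ.symm (e x)).2, rfl⟩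
  · rw [hg]
    exact ⟨_, (φ.symm (e y)).2, rfl⟩
  · exact fun h' => hxy (g.injective (hF h'))

/-- The converse. -/
theorem of_functional {n : ℕ} (h : ∀ (A : Type u) (F : M → Finset A), Function.Injective F →
    (∀ x, (F x).card = n) →
    ∃ (g : M ↪[L] M) (r : Set A), ∀ x y, x ≠ y → (F (g x) : Set A) ∩ (F (g y) : Set A) = r) :
    NSunflowerable L M n := by
  classical
  intro A Y hY S ⟨ψ⟩
  obtain ⟨g, r, hr⟩ := h A (fun m => ((ψ.symm m : Y) : Finset A))
    (fun x y hxy => ψ.symm.injective (Subtype.ext hxy)) (fun x => hY _ (ψ.symm x).2)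
  let f : Y ↪[L] Y := ψ.symm.toEmbedding.comp (g.comp ψ.toEmbedding)
  refine ⟨f.toHom.range, ⟨f.equivRange.symm⟩, r, ?_⟩
  rintro _ ⟨_, ⟨x, rfl⟩, rfl⟩ _ ⟨_, ⟨y, rfl⟩, rfl⟩ hxy
  have hne : ψ x ≠ ψ y := by
    intro h'
    apply hxy
    have : x = y := ψ.injective h'
    rw [this]
  exact hr _ _ hne

/-- Step 1: every function on a 2-sunflowerable structure is constant or injective on a copy. -/
theorem canonical (h : NSunflowerable L M 2) {X : Type u} (f : M → X) :
    ∃ g : M ↪[L] M, (∃ c, ∀ x, f (g x) = c) ∨ Function.Injective fun x => f (g x) := by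
  classical
  rcases subsingleton_or_nontrivial M with hM | hM
  · refine ⟨Embedding.refl L M, Or.inr fun x y _ => Subsingleton.elim _ _⟩
  let F : M → Finset (M ⊕ X) := fun m => {Sum.inl m, Sum.inr (f m)}
  have hF : Function.Injective F := by
    intro x y hxy
    have : (Sum.inl x : M ⊕ X) ∈ F y := by
      rw [← hxy]
      simp [F]
    simpa [F] using this
  obtain ⟨g, r, hr⟩ := functional h F hF (fun x => by simp [F])
  refine ⟨g, ?_⟩
  have key : ∀ x y, x ≠ y → (Sum.inr (f (g x)) ∈ r ↔ f (g x) = f (g y)) := by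
    intro x y hxy
    rw [← hr x y hxy]
    simp [F]
  by_cases hr0 : ∃ c, Sum.inr c ∈ r
  · obtain ⟨c, hc⟩ := hr0
    left
    refine ⟨c, fun x => ?_⟩
    obtain ⟨y, hy⟩ := exists_ne x
    rw [← hr x y hy.symm] at hc
    simp only [F, Set.mem_inter_iff, Finset.mem_coe, Finset.mem_insert, Finset.mem_singleton,
      reduceCtorEq, Sum.inr.injEq, false_or] at hc
    exact hc.1.symm
  · right
    intro x y hxy
    by_contra hne
    exact hr0 ⟨_, (key x y hne).2 hxy⟩

/-- Step 2: finitely many functions simultaneously. -/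
theorem canonical_finset (h : NSunflowerable L M 2) {X ι : Type u} (f : ι → M → X)
    (s : Finset ι) : ∃ g : M ↪[L] M, ∀ i ∈ s,
      (∃ c, ∀ x, f i (g x) = c) ∨ Function.Injective fun x => f i (g x) := by
  classical
  induction s using Finset.induction_on with
  | empty => exact ⟨Embedding.refl L M, fun i hi => absurd hi (Finset.notMem_empty i)⟩
  | insert j s _ ih =>
    obtain ⟨g, hg⟩ := ih
    obtain ⟨g', hg'⟩ := canonical h fun x => f j (g x)
    refine ⟨g.comp g', fun i hi => ?_⟩
    rcases Finset.mem_insert.1 hi with rfl | hi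
    · exact hg'
    · rcases hg i hi with ⟨c, hc⟩ | hinj
      · exact Or.inl ⟨c, fun x => hc (g' x)⟩
      · exact Or.inr fun x y hxy => g'.injective (hinj hxy)

/-- Greedy colouring of a graph of bounded degree. -/
theorem colouring {V : Type u} (N : V → Finset V) (D : ℕ) (hN : ∀ x, (N x).card ≤ D) :
    ∃ χ : V → Fin (D + 1), ∀ x y, x ≠ y → x ∈ N y → y ∈ N x → χ x ≠ χ y := by
  classical
  let r : V → V → Prop := WellOrderingRel
  have wf : WellFounded r := IsWellFounded.wf
  let step : (x : V) → ((y : V) → r y x → ℕ) → ℕ := fun x ih =>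
    sInf {k | ∀ (y : V) (hy : r y x), y ∈ N x → ih y hy ≠ k}
  let col : V → ℕ := wf.fix step
  have hcol : ∀ x, col x = sInf {k | ∀ y, r y x → y ∈ N x → col y ≠ k} := fun x =>
    wf.fix_eq step x
  have hex : ∀ x, ∃ k ≤ D, k ∈ {k | ∀ y, r y x → y ∈ N x → col y ≠ k} := by
    intro x
    have : ((N x).image col).card < (Finset.range (D + 1)).card := by
      rw [Finset.card_range]
      exact Nat.lt_succ_of_le (Finset.card_image_le.trans (hN x))
    obtain ⟨k, hk, hk'⟩ := Finset.exists_mem_notMem_of_card_lt_card this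
    refine ⟨k, Nat.lt_succ_iff.1 (Finset.mem_range.1 hk), fun y _ hy h' => hk' ?_⟩
    exact Finset.mem_image.2 ⟨y, hy, h'⟩
  have hle : ∀ x, col x ≤ D := by
    intro x
    obtain ⟨k, hk, hk'⟩ := hex x
    rw [hcol]
    exact (Nat.sInf_le hk').trans hk
  have hmem : ∀ x y, r y x → y ∈ N x → col y ≠ col x := by
    intro x
    obtain ⟨k, _, hk'⟩ := hex x
    have := Nat.sInf_mem ⟨k, hk'⟩
    rw [← hcol x] at this
    exact this
  refine ⟨fun x => ⟨col x, Nat.lt_succ_of_le (hle x)⟩, fun x y hxy h1 h2 he => ?_⟩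
  have he' : col x = col y := congrArg Fin.val he
  rcases trichotomous_of r x y with h | h | h
  · exact hmem y x h h1 he'
  · exact hxy h
  · exact hmem x y h h2 he'.symm

/-- Step 3: the main argument. -/
theorem main [Infinite M] (h : NSunflowerable L M 2) (n : ℕ) : NSunflowerable L M n := by
  classical
  apply of_functional
  intro A F hF hn
  -- enumerate the sets
  let f : ULift.{u} (Fin n) → M → A := fun i x =>
    (((F x).equivFinOfCardEq (hn x)).symm i.down : A)
  have hfF : ∀ x a, a ∈ F x ↔ ∃ i, f i x = a := by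
    intro x a
    constructor
    · intro ha
      refine ⟨⟨(F x).equivFinOfCardEq (hn x) ⟨a, ha⟩⟩, ?_⟩
      simp [f]
    · rintro ⟨i, rfl⟩
      exact (((F x).equivFinOfCardEq (hn x)).symm i.down).2
  have hfi : ∀ x i j, f i x = f j x → i = j := by
    intro x i j hij
    have := ((F x).equivFinOfCardEq (hn x)).symm.injective (Subtype.ext hij)
    exact ULift.ext _ _ this
  obtain ⟨g, hg⟩ := canonical_finset h f Finset.univ
  have hg' : ∀ i, (∃ c, ∀ x, f i (g x) = c) ∨ Function.Injective fun x => f i (g x) :=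
    fun i => hg i (Finset.mem_univ i)
  let I : ULift.{u} (Fin n) → Prop := fun i => Function.Injective fun x => f i (g x)
  -- the candidates for neighbours
  let cand : M → ULift.{u} (Fin n) × ULift.{u} (Fin n) → M := fun y p =>
    if hc : ∃ x, f p.1 (g x) = f p.2 (g y) then Classical.choose hc else y
  let N : M → Finset M := fun y => Finset.univ.image (cand y)
  obtain ⟨χ, hχ⟩ := colouring N (Fintype.card (ULift.{u} (Fin n) × ULift.{u} (Fin n)))
    (fun x => Finset.card_image_le)
  have hN : ∀ x y i j, I i → f i (g x) = f j (g y) → x ∈ N y := by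
    intro x y i j hi hij
    refine Finset.mem_image.2 ⟨(i, j), Finset.mem_univ _, ?_⟩
    have hc : ∃ x, f i (g x) = f j (g y) := ⟨x, hij⟩
    have h1 : cand y (i, j) = Classical.choose hc := dif_pos hc
    rw [h1]
    exact hi ((Classical.choose_spec hc).trans hij.symm)
  obtain ⟨g', hg2⟩ := canonical h fun x => (ULift.up (χ x) : ULift.{u} _)
  have hconst : ∀ x y, χ (g' x) = χ (g' y) := by
    rcases hg2 with ⟨c, hc⟩ | hinj
    · intro x y
      have := (hc x).trans (hc y).symm
      exact ULift.up_injective this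
    · exfalso
      have hfin : Finite M := Finite.of_injective (fun x => χ (g' x)) fun x y hxy =>
        hinj (congrArg ULift.up hxy)
      exact not_finite M
  refine ⟨g.comp g', {a | ∃ i, ¬ I i ∧ ∀ x, f i (g x) = a}, fun x y hxy => ?_⟩
  have hxy' : g' x ≠ g' y := fun h' => hxy (g'.injective h')
  ext a
  simp only [Set.mem_inter_iff, Finset.mem_coe, Set.mem_ofPred_eq, Embedding.comp_apply]
  constructor
  · rintro ⟨h1, h2⟩
    obtain ⟨i, hi⟩ := (hfF _ _).1 h1
    obtain ⟨j, hj⟩ := (hfF _ _).1 h2
    have hij : f i (g (g' x)) = f j (g (g' y)) := hi.trans hj.symm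
    by_cases hI : I i
    · by_cases hJ : I j
      · exact absurd (hconst x y) (hχ _ _ hxy' (hN _ _ i j hI hij) (hN _ _ j i hJ hij.symm))
      · rcases hg' j with ⟨c, hc⟩ | hinj
        · have : i = j := hfi (g (g' x)) i j (by rw [hij, hc, hc])
          exact absurd hI (this ▸ hJ)
        · exact absurd hinj hJ
    · rcases hg' i with ⟨c, hc⟩ | hinj
      · refine ⟨i, hI, fun z => ?_⟩
        rw [hc z, ← hc (g' x)]
        exact hi
      · exact absurd hinj hI
  · rintro ⟨i, _, hi⟩
    exact ⟨(hfF _ _).2 ⟨i, hi _⟩, (hfF _ _).2 ⟨i, hi _⟩⟩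

end

/-- **Every 2-sunflowerable infinite structure is sunflowerable.** -/
theorem result (L : FirstOrder.Language.{v, w}) (M : Type u) [L.Structure M] [Infinite M]
    (h : NSunflowerable L M 2) : Sunflowerable L M :=
  fun n => main h n

end Pool.Agent.Results.MP_615e1a_lc.TwoSunflowerable
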